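import Pool.Agent.N347.Hess.Tr

/-!
# Failure of reflection-subgroup positivity in type C

For `n = 3`, type C, let `H` be the space of the matrices in `sp_6(ℂ)` whose entries in the rows
`-1, -2` and the columns `1, 2` vanish. It is a Hessenberg space, and `S(H)` consists of the
reflections in all positive roots except `x_1 + x_2`, `2 x_1`, `2 x_2`. The value of `L_2(H)` at
the central element `-1` is a negative integer, so `L_2(H)` is not a combination of coset
characters with non-negative integer coefficients.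
-/

set_option autoImplicit false

namespace Pool.Agent.Results.MP_513174_co.NotCosetPositive

open Pool.Agent.N347.Hess

/-- The values of a non-negative integer combination of coset characters are natural numbers. -/
lemma comb_nat {n : ℕ} (c : Subgroup (SW n) →₀ ℕ) (w : SW n) :
    (c.sum fun R m => (m : ℂ) * (cosetChar R w : ℂ)) =
      ((∑ R ∈ c.support, c R * cosetChar R w : ℕ) : ℂ) := by
  rw [Finsupp.sum]
  push_cast
  rfl

lemma no_comb : ¬ ∃ c : Subgroup (SW 3) →₀ ℕ, ∀ w : SW 3,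
    L H0 2 w = c.sum fun R m => (m : ℂ) * (cosetChar R w : ℂ) := by
  rintro ⟨c, hc⟩
  obtain ⟨N, hN, h⟩ := main
  have h1 := hc ngS
  rw [h, comb_nat] at h1
  have h2 : N = ((∑ R ∈ c.support, c R * cosetChar R ngS : ℕ) : ℤ) := by exact_mod_cast h1
  omega

/-- Type C positivity fails, and it fails for an explicit Hessenberg space of `sp_6(ℂ)` in
degree `k = 2`: the character value at `-1` is a negative integer. -/
theorem result :
    (¬ ∀ (n : ℕ) (H : Submodule ℂ (Matrix (SInd n) (SInd n) ℂ)), IsHessenberg H → ∀ k : ℕ,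
      ∃ c : Subgroup (SW n) →₀ ℕ, (∀ R ∈ c.support, IsReflectionSubgroup R) ∧
        ∀ w : SW n, L H k w = c.sum fun R m => (m : ℂ) * (cosetChar R w : ℂ)) ∧
    ∃ H : Submodule ℂ (Matrix (SInd 3) (SInd 3) ℂ), IsHessenberg H ∧
      (∀ a b : SInd 3, RootOf H a b ↔
        pos a < pos b ∧ ¬ (a.1 ≠ 2 ∧ b.1 ≠ 2 ∧ a.2 = false ∧ b.2 = true)) ∧
      (∃ (w : SW 3) (N : ℤ), N < 0 ∧ L H 2 w = (N : ℂ)) ∧
      ¬ ∃ c : Subgroup (SW 3) →₀ ℕ, ∀ w : SW 3,
        L H 2 w = c.sum fun R m => (m : ℂ) * (cosetChar R w : ℂ) := by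
  refine ⟨fun h => ?_, H0, H0_hess, fun a b => ⟨not_bad_of_rootOf,
    fun h => rootOf_of_not_bad h.1 h.2⟩, ?_, no_comb⟩
  · obtain ⟨c, _, hc⟩ := h 3 H0 H0_hess 2
    exact no_comb ⟨c, hc⟩
  · obtain ⟨N, hN, h⟩ := main
    exact ⟨ngS, N, hN, h⟩

end Pool.Agent.Results.MP_513174_co.NotCosetPositive
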